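import Mathlib
import Pool.Agent.J4H9.HGStm
import Pool.Agent.N178.BL.Main

/-!
# The generalized Bloch conjecture for products of liftings of almost all isogeny classes

Let `𝒢` be the set of all pairs `(q, f)` such that each complex abelian variety `Y` without complex
multiplication which is a lifting of the isogeny class over the field with `q` elements with the
characteristic polynomial `f` of Frobenius (`IsLifting`: `Y` has a model over a finitely generated
field with good reduction of this class at one place) has only endomorphisms with real eigenvalues,
and the largest possible Hodge group, the Lefschetz group (`Pool.Agent.J4H9.HG.fullSet`).

We show that almost all isogeny classes, in each Newton stratum of height at most `(1 / 2 - μ) g` and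
over each sufficiently large finite field, are in `𝒢` (`AlmostAll 𝒢`): the exceptions are at most
`D 2 ^ #E 8 ^ g q ^ (- (μ / 4 - ε) g)` times the number of elements, for each subset `S` of the stratum
which contains at least `1 / D` of its elements. If `q > 2 ^ (12 / μ)` is fixed and the dimension `g`
tends to infinity then the proportion of the exceptions tends to zero exponentially; the slopes
`lam i = 0` give all abelian varieties over the field with `q` elements.

Let `X` be a complex abelian variety each of whose simple factors is without complex multiplication
and a lifting of an isogeny class in `𝒢`, or a factor of an abelian variety of dimension at most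
three (`HasFactorsIn 𝒢 X`). The pairs `(q, f)` may be different for the different factors, and all
powers and products are included. Let `M = (X, p)` be a direct summand of the Chow motive of `X`,
with Hodge numbers `h^(s, t)(M) = 0` for all `s ≠ t` with `s < c` or `t < c`. We prove that all
homologically trivial cycles of dimension less than `c` on `M` are rationally equivalent to zero, with
rational coefficients; this is the generalized Bloch conjecture for all smooth projective varieties
whose motive is such a direct summand, for instance the varieties which are images of `X`, and the
varieties which are images of products of curves of positive genus such that the product of their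
Jacobians is `X`. More precisely `p` is a sum of compositions `X → Y → X` of correspondences of degrees
`-c` and `c`, where `Y` is an abelian variety, or `-r` and `r`, where `Y` is a point and `r < c`.

The structure `ChowTheory` (`Pool.Agent.N178.BL.Defs`) collects the known properties of the Chow
groups of complex abelian varieties which are used, and the structure `GaloisData` the known
properties of the Galois representation of an abelian variety (Faltings, Deligne); the traces in
`IsLifting` are rational since they are traces of endomorphisms of the reduction.

The proof: by the counting part of `MP_021685_ag/NewtonStrata` the Hodge ring of all powers is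
generated by divisor classes for almost all liftings. Here it is shown that an endomorphism of the
lifting, which is given by an equivariant function on the Weil numbers, has real eigenvalues or
generates a field of complex multiplication, and that the Lie algebra of the Hodge group is the
Lefschetz Lie algebra (`HGFull`: the Casimir element of the Hodge Lie algebra is a Hodge class of
degree four). By the theorem of `MP_90e98f_ag/PowersAndCMFields` this implies the generalized Hodge
conjecture for `X`, and the conclusion on the Chow groups follows as in the results
`AbelianMotives` and `SmallPeriodFields` on this problem, whose classes of abelian varieties are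
different.
-/

set_option autoImplicit false

namespace Pool.Agent.Results.MP_13bc1c_ag.AlmostAllLiftings

open Module Polynomial Pool.Agent.Y90 Pool.Agent.R915 Pool.Agent.J4H9.HG
open Pool.Agent.N178.BL (ChowTheory)

/-- The sums of compositions `κ ∘ Γ`, where `Γ` is a correspondence of degree `-c` from `X` to an
abelian variety `Y` and `κ` a correspondence of degree `c` from `Y` to `X`; or `Y` is a point and the
degrees are `-r` and `r`, where `r < c`. -/
def throughTwists (C : ChowTheory) (X : AV) (c : ℕ) : AddSubgroup (C.Co X X) :=
  AddSubgroup.closure {q | ∃ (Y : AV) (r : ℤ) (Γ : C.Co X Y) (κ : C.Co Y X),
    (r = c ∨ (r < c ∧ finrank ℚ Y.H = 0)) ∧ C.IsDeg (-r) Γ ∧ C.IsDeg r κ ∧ q = C.o κ Γ}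

/-- **The generalized Bloch conjecture for the direct summands `(X, p)` of the Chow motives of the
abelian varieties `X` which are built from liftings of isogeny classes in a set `𝒢` which contains
almost all isogeny classes**: if the Hodge coniveau is at least `c`, then each homologically trivial
cycle `z` of dimension `i < c` on the motive is rationally equivalent to zero (the cycles on `X` are the
correspondences from a point `O` to `X`); more precisely `p` is a sum of compositions as in
`throughTwists`. -/
theorem result : ∃ 𝒢 : Set (ℕ × ℤ[X]), AlmostAll 𝒢 ∧
    ∀ (C : ChowTheory) (X : AV), HasFactorsIn 𝒢 X → ∀ p : C.Co X X, C.IsMotive p →
      ∀ c : ℕ, C.HasConiveau p c → p ∈ throughTwists C X c ∧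
        ∀ (O : AV) (i : ℤ) (z : C.Co O X), finrank ℚ O.H = 0 → i < c → C.IsDeg i z →
          C.o p z = z → (∀ ω, C.pb z ω = 0) → z = 0 := by
  refine ⟨fullSet, almostAll_fullSet, fun C X hX p hp c hc => ?_⟩
  have h := Pool.Agent.N178.BL.mem_Fac (ghc_liftings C.alg hX) hp hc
  exact ⟨h, fun O i z hO hi hz hpz h0 => Pool.Agent.N178.BL.cycle_zero h hO hi hz hpz h0⟩

end Pool.Agent.Results.MP_13bc1c_ag.AlmostAllLiftings
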