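import Pool.Agent.J4H42.ZS.Geo

/-!
# Bloch's conjecture for the quotients of diagonal complete intersections with `K_X = O(k)`, `k < n`

Let `X` be a smooth complex complete intersection of dimension `n ≥ 1`, of any codimension `r`, of
hypersurfaces of the same degree `m` with diagonal equations `∑ i, A j i * x i ^ m = 0`, with
arbitrary complex coefficients. Its canonical sheaf is `O(k)` for `k = r m - n - r - 1`, and we
assume that `k < n`, that is, `r (m - 1) ≤ 2 n`; the Fano ones and those of Calabi-Yau type are
included. Let `a` be an integral combination of the automorphisms of `X` that multiply the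
coordinates by `m`-th roots of unity. If `a` acts as zero on the regular `n`-forms of `X`, then it
acts as zero on the zero-cycles of degree zero modulo rational equivalence, up to torsion.

For the sum `a` of the elements of a finite group `H` this is Bloch's conjecture (`c = 1`) for the
resolutions of `X / H`: if `h^{n,0}(X / H) = 0` then all zero-cycles of degree zero on `X / H` are
torsion modulo rational equivalence.

The combinatorial part of the proof is a theorem on zero-sum sequences in `ZMod m`
(`Pool.Agent.J4H42.ZS.index_max`): a sequence of at least `(q (m + 1)) / 2 + 1` nonzero elements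
which is a union of `q`, and not of `q + 1`, nonempty sequences with zero sum becomes, after
multiplication by a suitable unit, a sequence of residues of positive integers with sum `q m`. For
`q = 1` this is the theorem of Savchev and Chen.
-/

set_option autoImplicit false

namespace Pool.Agent.Results.MP_13bc1c_ag.CanonicalDegreeBelowDimension

open Pool.Agent.T2H37.CI

theorem result (n r m : ℕ) [NeZero m] (hn : 1 ≤ n) (hm : r * (m - 1) ≤ 2 * n)
    (A : Matrix (Fin r) (Fin (n + r + 1)) ℂ) (hA : GeneralPosition A)
    (a : Diag ℂ (n + r + 1) m →₀ ℤ)
    (ha : ∀ (d : ℕ) (P : MvPolynomial (Fin (n + r + 1)) ℂ),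
      d + (n + r + 1) = r * m → P.IsHomogeneous d →
        ∀ v : Fin (n + r + 1) → ℂ, (∀ j, ∑ i, A j i * v i ^ m = 0) →
          (a.sum fun g c => (c : ℂ) *
            ((∏ i, g.1 i) * MvPolynomial.eval (fun i => g.1 i * v i) P)) = 0)
    (z : Pts A m →₀ ℤ) (hz : (z.sum fun _ c => c) = 0) :
    ∃ k : ℕ, 0 < k ∧ k • (a.sum fun g c => c • z.mapDomain (act g)) ∈ RatEquivZero A m :=
  Pool.Agent.J4H42.ZS.main hn hm hA a ha z hz

end Pool.Agent.Results.MP_13bc1c_ag.CanonicalDegreeBelowDimension
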