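import Pool.Agent.J4H13.PG.Final

/-!
# The generalized Bloch conjecture for correspondences in the group ring of covers of products of projective
# spaces branched along hyperplanes

Let `K` be the function field of a cover of `∏ P^{n i}` with a group `G = (ℤ/2)^r` branched along pull-backs of
hyperplanes from the factors: `K` is generated over `ℂ` by algebraically independent elements `x i k`, `k < n i`, and
square roots of products of linear forms on the factors (an even number on each factor, taken from a finite set `A i` of
pairwise not proportional forms). For the factors `P^1` and `P^2` the arrangement `A i` is arbitrary; for `n i ≥ 3` it is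
assumed that fewer than `2 dim W` of the forms are in `W`, for each space `W` of linear forms, `0 < dim W < n i + 1`; for
instance the hyperplanes can be in general position. The cover may have any number of regular differential forms of any
degrees.

Let `Γ = ∑ c j * g j` be an element of the group ring `ℚ[G]`, regarded as a self-correspondence of the cover. The
theorem: if `Γ` acts as zero on the regular differential forms of all positive degrees, then `Γ_* z = 0` for all
zero-cycles `z` of degree zero (with rational coefficients), on every projective model, and in every projective variety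
to which the cover is mapped. So `Γ_*` is zero on all the graded pieces `Gr^i`, `i ≥ 1`, of all filtrations of Bloch-Beilinson
type.

Precisely, let `X` be a projective variety over `ℂ` and `ξ` a point of `X` with coordinates in `K` (for instance the
generic point of a projective model of `K`). There is an affine model `Spec B` of the cover, that is, a finitely
generated subalgebra `B` of `K`, such that the points `g j ξ` are defined on it and `∑ c j [φ (g j ξ)]` has the same
class in `CH_0 (X) ⊗ ℚ` for all points `φ` of `Spec B`. The points `φ ξ` fill a dense open subset of the closure of `ξ`,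
and `∑ c j [φ (g j ξ)] = Γ_* [φ ξ]`.

Proof. Let `T` be a set of indices and `w T` the product of the `w r`, `r ∈ T`; it defines a character of `G`. If `Γ` acts
as a nonzero scalar on it then there are no regular forms with this character. Now `(w T)² = F = ∏ F i` modulo squares, where
`F i` is a product of an even number of different members of `A i`. If for each `i` with `F i ≠ 1` the double cover
of the factor has a form `Q i Ω i / sqrt (F i)` which is regular in a strong sense (see
`Pool/Agent/J4H13/PL/Jobs.lean`), then the product of these forms is a nonzero regular form on `K` with the character of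
`w T`, a contradiction. So for one of these `i` the double cover of the factor is rational in a strong sense (by a theorem of
Lovasz on pairs of linear forms, and a count of conditions for plane curves), and `ℂ(x)(w T)` is purely transcendental. Now
`Γ` is a combination of the norms of the stabilizers of such `w T` and of the norm of `G`, and each of these maps all
general points to the same class.
-/

namespace Pool.Agent.Results.MP_13bc1c_ag.GroupRingProductCovers

open FF Pool.Agent.J4H13.PG Pool.Agent.J4H13.BD Pool.Agent.J4H13.LA Pool.Agent.W602.GT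
  Pool.Agent.Helper397.HK

/-- The correspondence `∑ c j * g j` acts as zero on the regular differential forms of all positive degrees on (the smooth
projective models of) the field `K` of transcendence degree `N`, that is, on the alternating forms on the derivations
of `K` which are regular at all prime divisors (`conjDer g D = g⁻¹ D g`). -/
def KillsAllForms {K : Type} [Field K] [Algebra ℂ K] {m : ℕ} (c : Fin m → ℚ) (g : Fin m → K ≃ₐ[ℂ] K)
    (N : ℕ) : Prop :=
  ∀ p : ℕ, 1 ≤ p → ∀ ω : (Derivation ℂ K K) [⋀^Fin p]→ₗ[K] K,
    (∀ P : Place ℂ K, Divisorial N P → RegAt P fun D : Fin p → Derivation ℂ K K => ω D) →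
    ∀ D : Fin p → Derivation ℂ K K, ∑ j, (c j : K) * g j (ω fun i => conjDer (g j) (D i)) = 0

open scoped Classical in
/-- Bloch's conjecture for the correspondences in the group ring of a cover of a product of projective spaces
with a group `(ℤ/2)^r` branched along hyperplanes -/
theorem result {K : Type} [Field K] [Algebra ℂ K] {ι : Type} [Fintype ι] {n : ι → ℕ}
    {x : (i : ι) → Fin (n i) → K}
    (hx : AlgebraicIndependent ℂ fun p : (i : ι) × Fin (n i) => x p.1 p.2)
    {A : (i : ι) → Finset (Fin (n i + 1) → ℂ)} (hA0 : ∀ i, ∀ a ∈ A i, a ≠ 0)
    (hA2 : ∀ i, ∀ a ∈ A i, ∀ b ∈ A i, a ≠ b → LinearIndependent ℂ ![a, b])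
    (hA : ∀ i, n i ≤ 2 ∨ ∀ W : Submodule ℂ (Fin (n i + 1) → ℂ), W ≠ ⊥ → W ≠ ⊤ →
      ((A i).filter fun l => l ∈ W).card < 2 * Module.finrank ℂ W)
    {q : ℕ} {w : Fin q → K} (hw : ∀ r, ∃ S : (i : ι) → Finset (Fin (n i + 1) → ℂ),
      (∀ i, S i ⊆ A i ∧ Even (S i).card) ∧ w r ^ 2 = ∏ i, ∏ l ∈ S i,
        (algebraMap ℂ K (l 0) + ∑ k : Fin (n i), algebraMap ℂ K (l k.succ) * x i k))
    (hK : IntermediateField.adjoin ℂ
      (Set.range (fun p : (i : ι) × Fin (n i) => x p.1 p.2) ∪ Set.range w) = ⊤)
    {m : ℕ} {c : Fin m → ℚ} {g : Fin m → K ≃ₐ[ℂ] K} (hg : ∀ j i k, g j (x i k) = x i k)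
    (hc : KillsAllForms c g (∑ i, n i)) {N : ℕ} {X : ProjVar N} {ξ : Fin (N + 1) → K}
    (hξ : ξ ∈ X.Pts K) :
    ∃ (B : Subalgebra ℂ K) (hB : ∀ j i, g j (ξ i) ∈ B), B.FG ∧
      ∀ (φ φ' : B →ₐ[ℂ] ℂ) (p p' : Fin m → X.Pts ℂ),
        (∀ j i, (p j).1 i = φ ⟨g j (ξ i), hB j i⟩) →
        (∀ j i, (p' j).1 i = φ' ⟨g j (ξ i), hB j i⟩) →
        ∑ j, c j • cls (p j) = ∑ j, c j • cls (p' j) := by
  have hlf : ∀ i (l : Fin (n i + 1) → ℂ),
      Pool.Agent.J4H13.PL.lf (Fin.cons 1 (x i) : Fin (n i + 1) → K) l =
      algebraMap ℂ K (l 0) + ∑ k : Fin (n i), algebraMap ℂ K (l k.succ) * x i k := by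
    intro i l
    unfold Pool.Agent.J4H13.PL.lf
    rw [Fin.sum_univ_succ, Fin.cons_zero, mul_one]
    rfl
  refine corr_prod Pool.Agent.J4H13.PL.jobs (X := fun i => (Fin.cons 1 (x i) : Fin (n i + 1) → K))
    (fun i => rfl) hx (A := A) hA2 (fun i h => hA0 i 0 h rfl) hA (w := w) ?_ ?_ ?_ hc hξ
  · intro r
    obtain ⟨S, hS, h⟩ := hw r
    refine ⟨S, hS, ?_⟩
    rw [h]
    exact Finset.prod_congr rfl fun i _ => Finset.prod_congr rfl fun l _ => (hlf i l).symm
  · rw [eq_top_iff, ← hK]
    apply IntermediateField.adjoin.mono
    rintro z (⟨p, rfl⟩ | hz)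
    · left
      exact ⟨⟨p.1, p.2.succ⟩, rfl⟩
    · right
      exact hz
  · intro j i k
    refine Fin.cases ?_ (fun k => ?_) k
    · change g j 1 = 1
      exact map_one _
    · exact hg j i k

end Pool.Agent.Results.MP_13bc1c_ag.GroupRingProductCovers
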