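import Pool.Agent.J4H13.PL.All

/-!
# The generalized Bloch conjecture for the covers of products of projective spaces with the group
# `(ℤ/2)^r` branched along hyperplanes

Let `K` be the function field of a cover of `∏ P^{n i}` with a group `(ℤ/2)^r` branched along pull-backs of hyperplanes
from the factors: `K` is generated over `ℂ` by algebraically independent elements `x i k`, `k < n i`, and square roots of
products of linear forms on the factors (an even number on each factor, taken from a finite set `A i` of pairwise not
proportional forms). For the factors `P^1` and `P^2` the arrangement `A i` is arbitrary; for `n i ≥ 3` it is assumed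
that fewer than `2 dim W` of the forms are in `W`, for each space `W` of linear forms, `0 < dim W < n i + 1` (each linear
subspace of codimension `c` is in at most `2 c - 1` of the hyperplanes); for instance the hyperplanes can be in general
position. Examples: all quotients `(S_1 × ... × S_m) / G`, where the `S_i` are covers of this type of projective spaces with
groups `G_i = (ℤ/2)^{r_i}`, for instance surfaces or curves, of arbitrary geometric genus, and `G` is a subgroup of
`G_1 × ... × G_m`. There are varieties of general type of this kind without forms in all dimensions `≥ 2`.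

Theorem (the case `c = 1` of the generalized Bloch conjecture for these varieties): if there are no regular differential
forms of positive degree, then all points of every projective variety with the function field `K` (and of every projective
variety which is dominated by it) are rationally equivalent, modulo torsion.

Proof. By a group algebra argument it is enough that the fields `ℂ(x)(v)` are unirational, for the square roots `v` of the
products `F = ∏ F i`, `F i` a product of an even number `2 d` of different members of `A i`. Let `ρ` be the
dimension of the span of these members, for a factor with `F i ≠ 1`.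

1. If `d < ρ` (and `F i` satisfies the condition above, which is automatic for `n i ≤ 2` in this case) then the members
can be put into pairs `l k`, `l' k` such that any `j ≥ 1` pairs span a space of dimension at least `j + 1`. By a theorem of
Lovasz in linear algebra the field of the factor is purely transcendental over the field generated by the ratios
`s k = l k / l' k`, which are algebraically independent, and `F i = s 1 ⋯ s d` modulo squares; so `ℂ(x)(v)` is purely
transcendental, for all the other `F i`. The same is true if `n i = 2` and all but at most two of the lines pass through a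
point, but not all.

2. In all other cases there is a form `Q` of degree `d - ρ` such that `Q Ω / sqrt (F i)` is a regular form of degree
`ρ - 1`, in the following strong sense: at each place the order of `Q ∏ e k`, where the `e k` are the members of an adapted
basis of the forms which vanish at the centre, is greater than the order of the square root if there are such `e k`. (For
`n i = 2` this is a count of conditions for curves of degree `d - 3` with multiplicities at the points of the arrangement.)
As logarithmic forms of any degree have simple poles, the products of such forms for different factors are regular forms on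
`K`, also if the square roots of the `F i` are not in `K`. So 2 cannot be the case for all the factors with `F i ≠ 1`.
-/

namespace Pool.Agent.Results.MP_13bc1c_ag.ProductKummerCovers

open FF Pool.Agent.J4H13.PL Pool.Agent.J4H13.LA Pool.Agent.W602.GT Pool.Agent.Helper397.HK

/-- There are no regular differential forms of positive degree on (the smooth projective models of) the field `K` of
transcendence degree `N`: all alternating forms on the derivations of `K` which are regular at all prime divisors are 0. -/
def NoRegularForms (K : Type) [Field K] [Algebra ℂ K] (N : ℕ) : Prop :=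
  ∀ p : ℕ, 1 ≤ p → ∀ ω : (Derivation ℂ K K) [⋀^Fin p]→ₗ[K] K,
    (∀ P : Place ℂ K, Divisorial N P → RegAt P fun D : Fin p → Derivation ℂ K K => ω D) → ω = 0

open scoped Classical in
/-- the generalized Bloch conjecture for the covers of products of projective spaces with a group `(ℤ/2)^r` branched
along hyperplanes -/
theorem result {K : Type} [Field K] [Algebra ℂ K] {ι : Type} [Fintype ι] {n : ι → ℕ}
    {x : (i : ι) → Fin (n i) → K}
    (hx : AlgebraicIndependent ℂ fun p : (i : ι) × Fin (n i) => x p.1 p.2)
    (hno : NoRegularForms K (∑ i, n i))
    {A : (i : ι) → Finset (Fin (n i + 1) → ℂ)} (hA0 : ∀ i, ∀ a ∈ A i, a ≠ 0)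
    (hA2 : ∀ i, ∀ a ∈ A i, ∀ b ∈ A i, a ≠ b → LinearIndependent ℂ ![a, b])
    (hA : ∀ i, n i ≤ 2 ∨ ∀ W : Submodule ℂ (Fin (n i + 1) → ℂ), W ≠ ⊥ → W ≠ ⊤ →
      ((A i).filter fun l => l ∈ W).card < 2 * Module.finrank ℂ W)
    {q : ℕ} {w : Fin q → K} (hw : ∀ r, ∃ S : (i : ι) → Finset (Fin (n i + 1) → ℂ),
      (∀ i, S i ⊆ A i ∧ Even (S i).card) ∧ w r ^ 2 = ∏ i, ∏ l ∈ S i,
        (algebraMap ℂ K (l 0) + ∑ k : Fin (n i), algebraMap ℂ K (l k.succ) * x i k))
    (hK : IntermediateField.adjoin ℂ
      (Set.range (fun p : (i : ι) × Fin (n i) => x p.1 p.2) ∪ Set.range w) = ⊤)
    {N : ℕ} {X : ProjVar N} {ξ : Fin (N + 1) → K} (hξ : ξ ∈ X.Pts K)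
    (hX : ∀ (d : ℕ) (F : MvPolynomial (Fin (N + 1)) ℂ), F.IsHomogeneous d →
      MvPolynomial.aeval ξ F = 0 → F ∈ X.I) (a b : X.Pts ℂ) : cls a = cls b := by
  have h0 : ξ ≠ 0 := hξ.1
  have hI : X.I = (locus ξ h0).I := by
    apply le_antisymm (le_locus hξ)
    intro F hF
    rw [mem_locus] at hF
    exact X.mem_of_components fun d =>
      hX d _ (MvPolynomial.homogeneousComponent_isHomogeneous d F) (hF d)
  have hXl : X = locus ξ h0 := by
    obtain ⟨I, h1, h2, h3⟩ := X
    cases hI
    rfl
  have hlf : ∀ i (l : VV (n i)), Pool.Agent.J4H13.PL.lf (Fin.cons 1 (x i) : Fin (n i + 1) → K) l =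
      algebraMap ℂ K (l 0) + ∑ k : Fin (n i), algebraMap ℂ K (l k.succ) * x i k := by
    intro i l
    unfold Pool.Agent.J4H13.PL.lf
    rw [Fin.sum_univ_succ, Fin.cons_zero, mul_one]
    rfl
  have key : ∀ Y : ProjVar N, Y = locus ξ h0 → ∀ a b : Y.Pts ℂ, cls a = cls b := by
    rintro _ rfl
    refine bloch_prod jobs hno (X := fun i => (Fin.cons 1 (x i) : Fin (n i + 1) → K))
      (fun i => rfl) hx (A := A) hA2 (fun i h => hA0 i 0 h rfl) hA (w := w) ?_ ?_ ξ h0
    · intro r
      obtain ⟨S, hS, h⟩ := hw r
      refine ⟨S, hS, ?_⟩
      rw [h]
      exact Finset.prod_congr rfl fun i _ => Finset.prod_congr rfl fun l _ => (hlf i l).symm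
    · rw [eq_top_iff, ← hK]
      apply IntermediateField.adjoin.mono
      rintro z (⟨p, rfl⟩ | hz)
      · left
        exact ⟨⟨p.1, p.2.succ⟩, rfl⟩
      · right
        exact hz
  exact key X hXl a b

end Pool.Agent.Results.MP_13bc1c_ag.ProductKummerCovers
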